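import Pool.Agent.V11325.UrnFour

/-!
# Coexistence in the competing urn scheme on hypercubes and tori (MP_d3f74f_pr)

For every number `s ≥ 3` of types, on every hypercube `Q_n` with `n ≥ 5` and on every discrete
torus of dimension `d ≥ 3` whose side is a multiple of `4`, there is an initial configuration from
which at least three types (four types if `s ≥ 4`) coexist forever with probability at least `1/2`.
-/

open Finset MeasureTheory ProbabilityTheory Filter Topology

namespace Pool.Agent.Results.MP_d3f74f_pr.CoexistCubesTori

open Pool.Agent.TH996.Urn Pool.Agent.V11325.Urn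

/-- The hypercube `Q_n`: two strings are adjacent when they differ in exactly one coordinate. -/
def hypercube (n : ℕ) : SimpleGraph (Fin n → Bool) where
  Adj x y := ∃! i, x i ≠ y i
  symm := ⟨fun x y h => by
    obtain ⟨i, h1, h2⟩ := h
    exact ⟨i, h1.symm, fun j hj => h2 j hj.symm⟩⟩
  loopless := ⟨fun x h => by
    obtain ⟨i, h1, -⟩ := h
    exact h1 rfl⟩

/-- The discrete torus of dimension `d` and side `N`: two distinct vertices are adjacent when they
differ by `1` or `-1` in one coordinate and agree in the others. -/
def torus (d N : ℕ) : SimpleGraph (Fin d → ZMod N) where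
  Adj x y := x ≠ y ∧ ∃ i, (y i = x i + 1 ∨ y i = x i - 1) ∧ ∀ j, j ≠ i → y j = x j
  symm := ⟨fun x y h => by
    obtain ⟨h0, i, h1, h2⟩ := h
    refine ⟨h0.symm, i, ?_, fun j hj => (h2 j hj).symm⟩
    rcases h1 with h1 | h1
    · right
      rw [h1, add_sub_cancel_right]
    · left
      rw [h1, sub_add_cancel]⟩
  loopless := ⟨fun x h => h.1 rfl⟩

theorem cube_four {n : ℕ} (hn : 5 ≤ n) :
    FourBits (hypercube n) (fun v k => v (Fin.castLE (by omega : 4 ≤ n) k))
      (fun v (i : Fin n) => Function.update v i (!(v i)))
      (fun _ k => Fin.castLE (by omega : 4 ≤ n) k) (n - 4) where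
  adj v u := by
    constructor
    · rintro ⟨i, h1, h2⟩
      refine ⟨i, ?_⟩
      funext j
      by_cases hj : j = i
      · subst hj
        rw [Function.update_self]
        revert h1
        cases v j <;> cases u j <;> simp
      · rw [Function.update_of_ne hj]
        by_contra hcon
        exact hj (h2 j (fun h => hcon h.symm))
    · rintro ⟨i, rfl⟩
      refine ⟨i, ?_, ?_⟩
      · simp
      · intro j hj
        by_contra hne
        simp only [Function.update_of_ne hne, ne_eq, not_true_eq_false] at hj
  inj v := by
    intro i j hij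
    by_contra hne
    have h1 := congrFun hij i
    simp only [Function.update_self, Function.update_of_ne hne] at h1
    revert h1
    cases v i <;> simp
  einj _ := Fin.castLE_injective _
  flips v k := by
    funext j
    unfold flipBit
    by_cases hj : j = k
    · subst hj
      simp
    · rw [if_neg hj, Function.update_of_ne]
      intro h
      exact hj (Fin.castLE_injective _ h)
  keeps v i hi := by
    funext k
    rw [Function.update_of_ne (fun h => hi k h.symm)]
  card := by
    rw [Fintype.card_fin]
    omega

/-- Gray code on `ℤ/4ℤ` -/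
def gray (z : ZMod 4) (b : Fin 2) : Bool := decide (z = 2 ∨ (b = 0 ∧ z = 3) ∨ (b = 1 ∧ z = 1))

/-- the direction of the step which flips bit `b` -/
def dir (z : ZMod 4) (b : Fin 2) : Bool :=
  decide ((b = 0 ∧ (z = 1 ∨ z = 3)) ∨ (b = 1 ∧ (z = 0 ∨ z = 2)))

/-- one step -/
def mv {R : Type} [Ring R] (x : R) (b : Bool) : R := if b then x + 1 else x - 1

/-- coordinate of a bit -/
def cc (k : Fin 4) : Fin 2 := if k = 0 ∨ k = 1 then 0 else 1

/-- position of a bit in its coordinate -/
def bb (k : Fin 4) : Fin 2 := if k = 0 ∨ k = 2 then 0 else 1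

theorem gray_mv : ∀ (z : ZMod 4) (b b' : Fin 2), gray (mv z (dir z b)) b' =
    if b' = b then !(gray z b') else gray z b' := by
  decide

theorem mv_inj4 : ∀ (z : ZMod 4) (b b' : Bool), mv z b = mv z b' → b = b' := by
  decide

theorem mv_ne4 : ∀ (z : ZMod 4) (b : Bool), mv z b ≠ z := by
  decide

theorem dir_ne : ∀ (z : ZMod 4), dir z 0 ≠ dir z 1 := by
  decide

theorem cb_inj : ∀ k l : Fin 4, cc k = cc l → bb k = bb l → k = l := by
  decide

theorem dir_surj : ∀ (z : ZMod 4) (c : Fin 2) (b : Bool), ∃ k, cc k = c ∧ dir z (bb k) = b := by
  decide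

theorem dir_inj : ∀ (z : ZMod 4) (b b' : Fin 2), dir z b = dir z b' → b = b' := by
  decide

section
variable {d N : ℕ}

/-- reduction modulo `4` -/
def red (hN : 4 ∣ N) : ZMod N →+* ZMod 4 := ZMod.castHom hN (ZMod 4)

theorem red_mv (hN : 4 ∣ N) (x : ZMod N) (b : Bool) : red hN (mv x b) = mv (red hN x) b := by
  unfold mv
  split_ifs <;> simp

/-- the first two coordinates -/
def co (hd : 3 ≤ d) (c : Fin 2) : Fin d := Fin.castLE (by omega) c

theorem co_inj (hd : 3 ≤ d) {c c' : Fin 2} (h : co hd c = co hd c') : c = c' := Fin.castLE_injective _ h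

theorem torus_four (hd : 3 ≤ d) (hN : 4 ∣ N) :
    FourBits (torus d N) (fun v k => gray (red hN (v (co hd (cc k)))) (bb k))
      (fun v (i : Fin d × Bool) => Function.update v i.1 (mv (v i.1) i.2))
      (fun v k => (co hd (cc k), dir (red hN (v (co hd (cc k)))) (bb k))) (2 * d - 4) where
  adj v u := by
    constructor
    · rintro ⟨-, i, h1, h2⟩
      rcases h1 with h1 | h1
      · refine ⟨(i, true), ?_⟩
        funext j
        by_cases hj : j = i
        · subst hj
          simp [h1, mv]
        · simp only
          rw [Function.update_of_ne hj, h2 j hj]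
      · refine ⟨(i, false), ?_⟩
        funext j
        by_cases hj : j = i
        · subst hj
          simp [h1, mv]
        · simp only
          rw [Function.update_of_ne hj, h2 j hj]
    · rintro ⟨⟨i, b⟩, rfl⟩
      refine ⟨?_, i, ?_, ?_⟩
      · intro h
        have h1 := congrFun h i
        simp only [Function.update_self] at h1
        have h2 := congrArg (red hN) h1
        rw [red_mv] at h2
        exact mv_ne4 _ _ h2.symm
      · simp only [Function.update_self]
        cases b
        · right
          simp [mv]
        · left
          simp [mv]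
      · intro j hj
        simp only
        rw [Function.update_of_ne hj]
  inj v := by
    rintro ⟨i, b⟩ ⟨j, b'⟩ hij
    simp only at hij
    by_cases hne : i = j
    · subst hne
      have h1 := congrFun hij i
      simp only [Function.update_self] at h1
      have h2 := congrArg (red hN) h1
      rw [red_mv, red_mv] at h2
      rw [mv_inj4 _ _ _ h2]
    · exfalso
      have h1 := congrFun hij i
      simp only [Function.update_self, Function.update_of_ne hne] at h1
      have h2 := congrArg (red hN) h1
      rw [red_mv] at h2
      exact mv_ne4 _ _ h2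
  einj v := by
    intro k l hkl
    simp only [Prod.mk.injEq] at hkl
    obtain ⟨h1, h2⟩ := hkl
    have h3 := co_inj hd h1
    rw [h3] at h2
    exact cb_inj k l h3 (dir_inj _ _ _ h2)
  flips v k := by
    funext j
    unfold flipBit
    simp only
    by_cases hj : cc j = cc k
    · rw [hj, Function.update_self, red_mv, gray_mv]
      by_cases hjk : j = k
      · subst hjk
        rw [if_pos rfl, if_pos rfl]
      · rw [if_neg hjk, if_neg (fun h => hjk (cb_inj j k hj h))]
    · have hjk : j ≠ k := fun h => hj (by rw [h])
      rw [if_neg hjk, Function.update_of_ne (fun h => hj (co_inj hd h))]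
  keeps v i hi := by
    obtain ⟨i, b⟩ := i
    funext k
    simp only
    rw [Function.update_of_ne]
    intro h
    obtain ⟨l, h1, h2⟩ := dir_surj (red hN (v (co hd (cc k)))) (cc k) b
    refine hi l ?_
    rw [h1, h2, h]
  card := by
    rw [Fintype.card_prod, Fintype.card_fin, Fintype.card_bool]
    omega

end

/-- **Coexistence on hypercubes and tori.** For every `s ≥ 3`: on the hypercube `Q_n`, `n ≥ 5`, and
on the discrete torus of dimension `d ≥ 3` with side `N` a positive multiple of `4`, the
`s`-type competing urn scheme has an initial configuration from which, with probability at least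
`1/2`, three types (four types if `s ≥ 4`) are all present at all times. -/
theorem result : ∀ s : ℕ, 3 ≤ s →
    (∀ n : ℕ, 5 ≤ n → Coexist (hypercube n) s (min s 4)) ∧
    (∀ d N : ℕ, ∀ [NeZero N], 3 ≤ d → 4 ∣ N → Coexist (torus d N) s (min s 4)) := by
  intro s hs
  rcases Nat.lt_or_ge 3 s with h4 | h3
  · rw [min_eq_right (by omega : 4 ≤ s)]
    refine ⟨fun n hn => ?_, fun d N _ hd hN => ?_⟩
    · exact (cube_four hn).coexist (by omega) pattern4 (by omega) (fun _ => false)
    · exact (torus_four hd hN).coexist (by omega) pattern4 (by omega) (fun _ => 0)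
  · have h5 : s = 3 := by omega
    subst h5
    rw [min_eq_left (by omega : 3 ≤ 4)]
    refine ⟨fun n hn => ?_, fun d N _ hd hN => ?_⟩
    · exact (cube_four hn).coexist (by omega) pattern3 le_rfl (fun _ => false)
    · exact (torus_four hd hN).coexist (by omega) pattern3 le_rfl (fun _ => 0)

end Pool.Agent.Results.MP_d3f74f_pr.CoexistCubesTori
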